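import Mathlib

set_option autoImplicit false

namespace Pool.Agent.helper88.SZ

open Polynomial

lemma pow_ge_nat (k : ℕ) : (k : ℝ) ≤ (17/10 : ℝ) ^ k := by
  induction k with
  | zero => norm_num
  | succ k ih =>
    rcases Nat.lt_or_ge k 2 with h | h
    · interval_cases k <;> norm_num
    · have hk : (2 : ℝ) ≤ k := by exact_mod_cast h
      rw [pow_succ]
      push_cast
      nlinarith

/-- the real inequality -/
lemma real_ineq (m : ℕ) (hm : 2 ≤ m) (t : ℝ) (h1 : 1 ≤ t) (h3 : t ≤ 3) :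
    (|t ^ 2 - 3| / 2) ^ m + (t ^ 2 - 1) / 2 ≤ (1 + 4 / 3 ^ m) * t ^ m := by
  obtain ⟨k, rfl⟩ : ∃ k, m = k + 1 := ⟨m - 1, by omega⟩
  have hk : 1 ≤ k := by omega
  set u : ℝ := |t ^ 2 - 3| / 2 with hu
  have hu0 : 0 ≤ u := by positivity
  have hut : u ≤ t := by
    rw [hu, div_le_iff₀ (by norm_num : (0:ℝ) < 2), abs_le]
    constructor <;> nlinarith
  have ht0 : 0 < t := by linarith
  have hpow : u ^ k ≤ t ^ k := pow_le_pow_left₀ hu0 hut k
  have hum : u ^ (k + 1) ≤ u * t ^ k := by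
    rw [pow_succ]
    nlinarith
  have htk : t ≤ t ^ k := by
    calc t = t ^ 1 := (pow_one t).symm
      _ ≤ t ^ k := pow_le_pow_right₀ h1 hk
  have h3pos : (0 : ℝ) < 3 ^ (k + 1) := by positivity
  have hexp : (1 + 4 / 3 ^ (k + 1)) * t ^ (k + 1) = t * t ^ k + 4 * (t / 3) ^ (k + 1) := by
    rw [div_pow]
    field_simp
    ring
  rw [hexp]
  rcases le_total (t ^ 2) 3 with hc | hc
  · have hu2 : u = (3 - t ^ 2) / 2 := by
      rw [hu, abs_of_nonpos (by linarith)]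
      ring
    have hpos : 0 ≤ 4 * (t / 3) ^ (k + 1) := by positivity
    have hmain : (t ^ 2 - 1) / 2 ≤ (t - u) * t ^ k := by
      have e1 : (t ^ 2 - 1) / 2 ≤ (t - u) * t := by
        rw [hu2]
        nlinarith [mul_nonneg (sub_nonneg.2 h1) (sub_nonneg.2 h1), mul_nonneg (sub_nonneg.2 h1) (mul_nonneg ht0.le (by linarith : (0:ℝ) ≤ t + 3))]
      have e2 : (t - u) * t ≤ (t - u) * t ^ k :=
        mul_le_mul_of_nonneg_left htk (sub_nonneg.2 hut)
      linarith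
    nlinarith
  · have hu2 : u = (t ^ 2 - 3) / 2 := by
      rw [hu, abs_of_nonneg (by linarith)]
    have ht17 : (17/10 : ℝ) ≤ t := by nlinarith
    have hb : 1 + ((k + 1 : ℕ) : ℝ) * ((t - 3) / 3) ≤ (1 + (t - 3) / 3) ^ (k + 1) :=
      one_add_mul_le_pow (by linarith) (k + 1)
    have hb' : (1 + (t - 3) / 3) = t / 3 := by ring
    rw [hb'] at hb
    push_cast at hb
    have hk17 : (k : ℝ) ≤ t ^ k :=
      (pow_ge_nat k).trans (pow_le_pow_left₀ (by norm_num) ht17 k)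
    have hkr : (1 : ℝ) ≤ k := by exact_mod_cast hk
    have hkey : (4 : ℝ) / 3 * (k + 1) ≤ (t + 1) * t ^ k / 2 + (3 + t) / 2 := by
      nlinarith
    have h3t : 0 ≤ 3 - t := by linarith
    have hprod := mul_le_mul_of_nonneg_left hkey h3t
    have hmain : (t ^ 2 - 1) / 2 ≤ (t - u) * t ^ k + 4 * (t / 3) ^ (k + 1) := by
      rw [hu2]
      nlinarith
    nlinarith

lemma norm_facts (w : ℂ) (hw : ‖w‖ = 1) :
    ‖w ^ 2 + w + 1‖ = |‖2 + w‖ ^ 2 - 3| / 2 ∧ ‖w + 1‖ ^ 2 = (‖2 + w‖ ^ 2 - 1) / 2 ∧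
      1 ≤ ‖2 + w‖ ∧ ‖2 + w‖ ≤ 3 := by
  have hn : w.re * w.re + w.im * w.im = 1 := by
    have h := Complex.normSq_eq_norm_sq w
    rw [hw, Complex.normSq_apply] at h
    linarith
  have h2 : ‖2 + w‖ ^ 2 = 5 + 4 * w.re := by
    rw [← Complex.normSq_eq_norm_sq, Complex.normSq_apply]
    simp
    nlinarith
  have h1 : ‖w + 1‖ ^ 2 = 2 + 2 * w.re := by
    rw [← Complex.normSq_eq_norm_sq, Complex.normSq_apply]
    simp
    nlinarith
  have h0 : ‖w ^ 2 + w + 1‖ ^ 2 = (1 + 2 * w.re) ^ 2 := by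
    rw [← Complex.normSq_eq_norm_sq, Complex.normSq_apply]
    have hre : (w ^ 2 + w + 1).re = w.re * w.re - w.im * w.im + w.re + 1 := by
      simp [pow_two]
    have him : (w ^ 2 + w + 1).im = 2 * w.re * w.im + w.im := by
      simp [pow_two]
      ring
    rw [hre, him]
    have hi : w.im * w.im = 1 - w.re * w.re := by linarith
    have : (w.re * w.re - w.im * w.im + w.re + 1) * (w.re * w.re - w.im * w.im + w.re + 1) +
        (2 * w.re * w.im + w.im) * (2 * w.re * w.im + w.im) =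
        (w.re * w.re - w.im * w.im + w.re + 1) ^ 2 + (2 * w.re + 1) ^ 2 * (w.im * w.im) := by ring
    rw [this, hi]
    ring
  refine ⟨?_, ?_, ?_, ?_⟩
  · have habs : ‖w ^ 2 + w + 1‖ = |1 + 2 * w.re| := by
      rw [← Real.sqrt_sq (norm_nonneg (w ^ 2 + w + 1)), h0, Real.sqrt_sq_eq_abs]
    rw [habs, h2]
    have : 5 + 4 * w.re - 3 = 2 * (1 + 2 * w.re) := by ring
    rw [this, abs_mul]
    norm_num
  · rw [h1, h2]
    ring
  · have := norm_sub_norm_le (2 : ℂ) (-w)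
    rw [norm_neg, hw, sub_neg_eq_add] at this
    have h22 : ‖(2 : ℂ)‖ = 2 := by norm_num
    linarith
  · have := norm_add_le (2 : ℂ) w
    have h22 : ‖(2 : ℂ)‖ = 2 := by norm_num
    linarith

lemma circle_bound (m : ℕ) (hm : 2 ≤ m) (w : ℂ) (hw : ‖w‖ = 1) :
    ‖(w ^ 2 + w + 1) ^ m + w ^ (2 * m - 2) * (w + 1) ^ 2‖ ≤ (1 + 4 / 3 ^ m) * ‖2 + w‖ ^ m := by
  obtain ⟨h1, h2, h3, h4⟩ := norm_facts w hw
  calc ‖(w ^ 2 + w + 1) ^ m + w ^ (2 * m - 2) * (w + 1) ^ 2‖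
      ≤ ‖(w ^ 2 + w + 1) ^ m‖ + ‖w ^ (2 * m - 2) * (w + 1) ^ 2‖ := norm_add_le _ _
    _ = (|‖2 + w‖ ^ 2 - 3| / 2) ^ m + (‖2 + w‖ ^ 2 - 1) / 2 := by
        rw [norm_pow, h1, norm_mul, norm_pow, hw, one_pow, one_mul, norm_pow, h2]
    _ ≤ _ := real_ineq m hm _ h3 h4

lemma disc_bound (m : ℕ) (hm : 2 ≤ m) (w : ℂ) (hw : ‖w‖ ≤ 1) :
    ‖(w ^ 2 + w + 1) ^ m + w ^ (2 * m - 2) * (w + 1) ^ 2‖ ≤ (1 + 4 / 3 ^ m) * ‖2 + w‖ ^ m := by
  have hne : ∀ v ∈ Metric.closedBall (0 : ℂ) 1, (2 + v) ^ m ≠ 0 := by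
    intro v hv
    have hv' : ‖v‖ ≤ 1 := by simpa using hv
    apply pow_ne_zero
    intro h
    have : v = -2 := by linear_combination h
    rw [this] at hv'
    norm_num at hv'
  have hd : DiffContOnCl ℂ (fun v : ℂ => ((v ^ 2 + v + 1) ^ m + v ^ (2 * m - 2) * (v + 1) ^ 2) /
      (2 + v) ^ m) (Metric.ball (0 : ℂ) 1) := by
    apply DifferentiableOn.diffContOnCl
    rw [closure_ball (0 : ℂ) one_ne_zero]
    intro v hv
    apply DifferentiableAt.differentiableWithinAt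
    apply DifferentiableAt.div
    · fun_prop
    · fun_prop
    · exact hne v hv
  have hmax := Complex.norm_le_of_forall_mem_frontier_norm_le (U := Metric.ball (0 : ℂ) 1)
    (C := 1 + 4 / 3 ^ m) Metric.isBounded_ball hd (by
      intro v hv
      rw [frontier_ball (0 : ℂ) one_ne_zero] at hv
      have hv' : ‖v‖ = 1 := by simpa using hv
      have hvc : v ∈ Metric.closedBall (0 : ℂ) 1 := by simp [hv']
      rw [norm_div, div_le_iff₀ (norm_pos_iff.2 (hne v hvc)), norm_pow]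
      exact circle_bound m hm v hv') (z := w) (by
      rw [closure_ball (0 : ℂ) one_ne_zero]
      simpa using hw)
  have hwc : w ∈ Metric.closedBall (0 : ℂ) 1 := by simpa using hw
  rw [norm_div, div_le_iff₀ (norm_pos_iff.2 (hne w hwc)), norm_pow] at hmax
  exact hmax

/-- the polynomial -/
noncomputable def Pm (m : ℕ) : Polynomial ℤ :=
  X ^ (3 * m) * (C 2 * X + C 1) ^ m - ((X ^ 2 + X + C 1) ^ m + (X + C 1) ^ 2)

lemma nd1 : (C 2 * X + C 1 : Polynomial ℤ).natDegree = 1 :=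
  natDegree_linear (by norm_num)

lemma lc1 : (C 2 * X + C 1 : Polynomial ℤ).leadingCoeff = 2 :=
  leadingCoeff_linear (by norm_num)

lemma ndA (m : ℕ) : (X ^ (3 * m) * (C 2 * X + C 1) ^ m : Polynomial ℤ).natDegree = 4 * m := by
  have h0 : (C 2 * X + C 1 : Polynomial ℤ) ≠ 0 := by
    intro h
    have := nd1
    rw [h] at this
    simp at this
  rw [natDegree_mul (pow_ne_zero _ X_ne_zero) (pow_ne_zero _ h0), natDegree_pow, natDegree_pow,
    natDegree_X, nd1]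
  ring

lemma lcA (m : ℕ) : (X ^ (3 * m) * (C 2 * X + C 1) ^ m : Polynomial ℤ).leadingCoeff = 2 ^ m := by
  rw [leadingCoeff_mul, leadingCoeff_pow, leadingCoeff_pow, leadingCoeff_X, lc1]
  simp

lemma ndB (m : ℕ) (hm : 1 ≤ m) :
    ((X ^ 2 + X + C 1) ^ m + (X + C 1) ^ 2 : Polynomial ℤ).natDegree ≤ 2 * m := by
  apply natDegree_add_le_of_degree_le
  · calc ((X ^ 2 + X + C 1 : Polynomial ℤ) ^ m).natDegree
        ≤ m * (X ^ 2 + X + C 1 : Polynomial ℤ).natDegree := natDegree_pow_le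
      _ ≤ m * 2 := by
          apply Nat.mul_le_mul_left
          compute_degree
      _ = 2 * m := by ring
  · calc ((X + C 1 : Polynomial ℤ) ^ 2).natDegree ≤ 2 := by compute_degree
      _ ≤ 2 * m := by omega

lemma ndP (m : ℕ) (hm : 1 ≤ m) : (Pm m).natDegree = 4 * m := by
  rw [Pm, natDegree_sub_eq_left_of_natDegree_lt, ndA]
  rw [ndA]
  exact lt_of_le_of_lt (ndB m hm) (by omega)

lemma lcP (m : ℕ) (hm : 1 ≤ m) : (Pm m).leadingCoeff = 2 ^ m := by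
  rw [Pm, leadingCoeff_sub_of_degree_lt, lcA]
  apply degree_lt_degree
  rw [ndA]
  exact lt_of_le_of_lt (ndB m hm) (by omega)

lemma evalP (m : ℕ) (z : ℂ) :
    aeval z (Pm m) = z ^ (3 * m) * (2 * z + 1) ^ m - ((z ^ 2 + z + 1) ^ m + (z + 1) ^ 2) := by
  have h2 : (aeval z) (C (2 : ℤ)) = (2 : ℂ) := by
    rw [aeval_C]
    simp
  have h1 : (aeval z) (C (1 : ℤ)) = (1 : ℂ) := by
    rw [aeval_C]
    simp
  rw [Pm, map_sub, map_mul, map_add, map_pow, map_pow, map_pow, map_pow, map_add, map_add, map_add,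
    map_add, map_mul, map_pow, aeval_X, h1, h2]

lemma exists_root (m : ℕ) (hm : 1 ≤ m) : ∃ z : ℂ, aeval z (Pm m) = 0 ∧ 1 < ‖z‖ := by
  have hcont : ContinuousOn (fun x : ℝ => x ^ (3 * m) * (2 * x + 1) ^ m -
      ((x ^ 2 + x + 1) ^ m + (x + 1) ^ 2)) (Set.Icc 1 2) := by fun_prop
  have h40 : (7 : ℝ) ^ m + 9 ≤ 40 ^ m := by
    obtain ⟨k, rfl⟩ : ∃ k, m = k + 1 := ⟨m - 1, by omega⟩
    have e1 : (1 : ℝ) ≤ 7 ^ k := one_le_pow₀ (by norm_num)
    have e2 : (7 : ℝ) ^ k ≤ 40 ^ k := pow_le_pow_left₀ (by norm_num) (by norm_num) k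
    rw [pow_succ, pow_succ]
    nlinarith
  have hsub := intermediate_value_Icc (by norm_num : (1 : ℝ) ≤ 2) hcont
  have h0 : (0 : ℝ) ∈ Set.Icc ((fun x : ℝ => x ^ (3 * m) * (2 * x + 1) ^ m -
      ((x ^ 2 + x + 1) ^ m + (x + 1) ^ 2)) 1) ((fun x : ℝ => x ^ (3 * m) * (2 * x + 1) ^ m -
      ((x ^ 2 + x + 1) ^ m + (x + 1) ^ 2)) 2) := by
    constructor
    · norm_num
    · have : (2 : ℝ) ^ (3 * m) * (2 * 2 + 1) ^ m = 40 ^ m := by
        rw [pow_mul, ← mul_pow]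
        norm_num
      show (0 : ℝ) ≤ 2 ^ (3 * m) * (2 * 2 + 1) ^ m - ((2 ^ 2 + 2 + 1) ^ m + (2 + 1) ^ 2)
      rw [this]
      norm_num
      linarith
  obtain ⟨x, hx, hx0⟩ := hsub h0
  refine ⟨(x : ℂ), ?_, ?_⟩
  · rw [evalP]
    have := congrArg (fun r : ℝ => (r : ℂ)) hx0
    push_cast at this
    exact this
  · have hx1 : x ≠ 1 := by
      rintro rfl
      simp only at hx0
      norm_num at hx0
    have : 1 < x := lt_of_le_of_ne hx.1 (Ne.symm hx1)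
    rw [Complex.norm_real, Real.norm_eq_abs]
    exact lt_of_lt_of_le this (le_abs_self x)

lemma root_bound (m : ℕ) (hm : 2 ≤ m) (z : ℂ) (hz : aeval z (Pm m) = 0) (h1 : 1 < ‖z‖) :
    ‖z‖ ^ (2 * m) ≤ 1 + 4 / 3 ^ m := by
  rw [evalP] at hz
  have hz0 : z ≠ 0 := by
    rintro rfl
    simp at h1
    linarith
  set w : ℂ := z⁻¹ with hw
  have hzw : z = w⁻¹ := by rw [hw, inv_inv]
  have hw0 : w ≠ 0 := inv_ne_zero hz0
  have hw1 : ‖w‖ ≤ 1 := by
    rw [hw, norm_inv]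
    exact inv_le_one_of_one_le₀ h1.le
  have hb := disc_bound m hm w hw1
  have hid : (w ^ 2 + w + 1) ^ m + w ^ (2 * m - 2) * (w + 1) ^ 2 =
      z ^ (2 * m) * (2 + w) ^ m := by
    have e1 : z ^ 2 + z + 1 = z ^ 2 * (w ^ 2 + w + 1) := by
      rw [hw]
      field_simp
      ring
    have e2 : 2 * z + 1 = z * (2 + w) := by
      have e5 : z * w = 1 := mul_inv_cancel₀ hz0
      rw [mul_add, e5]
      ring
    have e3 : (z + 1) ^ 2 = z ^ (2 * m) * (w ^ (2 * m - 2) * (w + 1) ^ 2) := by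
      obtain ⟨k, rfl⟩ : ∃ k, m = k + 1 := ⟨m - 1, by omega⟩
      have : 2 * (k + 1) - 2 = 2 * k := by omega
      rw [this]
      have e4 : z ^ (2 * (k + 1)) * (w ^ (2 * k) * (w + 1) ^ 2) =
          (z * w) ^ (2 * k) * (z * (w + 1)) ^ 2 := by ring
      have e5 : z * w = 1 := mul_inv_cancel₀ hz0
      rw [e4, e5, one_pow, one_mul, mul_add, e5]
      ring
    rw [e1, e2, e3, mul_pow, mul_pow, ← pow_mul] at hz
    have hz2 : z ^ (2 * m) ≠ 0 := pow_ne_zero _ hz0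
    have e6 : z ^ (2 * m) * ((w ^ 2 + w + 1) ^ m + w ^ (2 * m - 2) * (w + 1) ^ 2) =
        z ^ (2 * m) * (z ^ (2 * m) * (2 + w) ^ m) := by
      have : z ^ (3 * m) * (z ^ m * (2 + w) ^ m) = z ^ (2 * m) * (z ^ (2 * m) * (2 + w) ^ m) := by
        ring
      rw [← this]
      linear_combination -hz
    exact mul_left_cancel₀ hz2 e6
  rw [hid, norm_mul, norm_pow, norm_pow] at hb
  have hpos : 0 < ‖2 + w‖ ^ m := by
    apply pow_pos
    apply norm_pos_iff.2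
    intro h
    have : w = -2 := by linear_combination h
    rw [this] at hw1
    norm_num at hw1
  exact le_of_mul_le_mul_right hb hpos

theorem main :
    ¬ (∃ c : ℝ, 0 < c ∧
      ∀ P : Polynomial ℤ, 0 < P.natDegree →
        (∃ z : ℂ, Polynomial.aeval z P = 0 ∧ 1 < ‖z‖) →
        ∃ z : ℂ, Polynomial.aeval z P = 0 ∧
          1 + c / (|((P.leadingCoeff : ℤ) : ℝ)| * (P.natDegree : ℝ)) < ‖z‖) := by
  rintro ⟨c, hc, h⟩
  obtain ⟨m0, hm0⟩ := exists_pow_lt_of_lt_one (show (0 : ℝ) < c / 8 by positivity)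
    (show (2 / 3 : ℝ) < 1 by norm_num)
  set m : ℕ := m0 + 2 with hm
  have hm2 : 2 ≤ m := by omega
  have hm1 : 1 ≤ m := by omega
  have hpow : (2 / 3 : ℝ) ^ m < c / 8 := by
    refine lt_of_le_of_lt ?_ hm0
    exact pow_le_pow_of_le_one (by norm_num) (by norm_num) (by omega)
  obtain ⟨z, hz, hlt⟩ := h (Pm m) (by rw [ndP m hm1]; omega) (exists_root m hm1)
  rw [ndP m hm1, lcP m hm1] at hlt
  have habs : |(((2 : ℤ) ^ m : ℤ) : ℝ)| = 2 ^ m := by
    push_cast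
    exact abs_of_pos (by positivity)
  rw [habs] at hlt
  push_cast at hlt
  have hmr : (0 : ℝ) < m := by exact_mod_cast (by omega : 0 < m)
  have h1 : 1 < ‖z‖ := by
    refine lt_of_le_of_lt ?_ hlt
    have : 0 ≤ c / (2 ^ m * (4 * (m : ℝ))) := by positivity
    linarith
  have hb := root_bound m hm2 z hz h1
  have hbern : 1 + ((2 * m : ℕ) : ℝ) * (‖z‖ - 1) ≤ (1 + (‖z‖ - 1)) ^ (2 * m) :=
    one_add_mul_le_pow (by linarith) (2 * m)
  rw [show (1 : ℝ) + (‖z‖ - 1) = ‖z‖ by ring] at hbern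
  push_cast at hbern
  have hx : c / (2 ^ m * (4 * (m : ℝ))) < ‖z‖ - 1 := by linarith
  have h2m : 2 * (m : ℝ) * (‖z‖ - 1) ≤ 4 / 3 ^ m := by linarith
  have h3 : 2 * (m : ℝ) * (c / (2 ^ m * (4 * (m : ℝ)))) < 4 / 3 ^ m := by
    refine lt_of_lt_of_le ?_ h2m
    exact mul_lt_mul_of_pos_left hx (by positivity)
  have h4 : 2 * (m : ℝ) * (c / (2 ^ m * (4 * (m : ℝ)))) = c / (2 * 2 ^ m) := by
    field_simp
    ring
  rw [h4, div_lt_div_iff₀ (by positivity) (by positivity)] at h3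
  have h5 : (2 / 3 : ℝ) ^ m * 3 ^ m = 2 ^ m := by
    rw [← mul_pow]
    norm_num
  have h3p : (0 : ℝ) < 3 ^ m := by positivity
  have h6 : (2 / 3 : ℝ) ^ m * 3 ^ m < c / 8 * 3 ^ m := mul_lt_mul_of_pos_right hpow h3p
  rw [h5] at h6
  linarith

end Pool.Agent.helper88.SZ
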